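import Pool.Agent.Q287.MK.MK8

open MeasureTheory

namespace Pool.Agent.Results.MP_0c4359_pr.WholeRegion

open Q287.MK

/-- Question Q1 of MP_0c4359_pr: the largest set `D ⊆ A` of pairs `(μ,ν)` such that for every choice of
`b > a > 0` the law with density proportional to `x^(ν-1) e^(-bx) I_μ(ax)` on `(0,∞)` is infinitely
divisible is the whole admissible region `A = {μ > -1, μ+ν > 0}`. -/
theorem result :
    {p : ℝ × ℝ | (-1 < p.1 ∧ 0 < p.1 + p.2) ∧
      ∀ a b : ℝ, 0 < a → a < b → IsInfDiv (law p.1 p.2 a b)} =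
    {p : ℝ × ℝ | -1 < p.1 ∧ 0 < p.1 + p.2} := by
  ext p
  constructor
  · intro h; exact h.1
  · intro h
    exact ⟨h, fun a b ha hab => law_infDiv p.1 p.2 a b h.1 h.2 ha hab⟩

end Pool.Agent.Results.MP_0c4359_pr.WholeRegion
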